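import Pool.Agent.Lib.MP_4fbe7c_an.ND.Iface
import Pool.Agent.Lib.MP_4fbe7c_an.ND.Base

/-!
Module DIS (helper65): the functional decreases.  The formula of DVF, the algebraic theorem in
every coordinate at every point, and
`ρ₀ (U - θ) ⟨ζ, W - ζ⟩ ≤ (U - θ) ^ 2 / 2 + ρ₀ θ / 2000 · N`.
-/

set_option autoImplicit false

open Set MeasureTheory

namespace Pool.Agent.Lib.MP_4fbe7c_an.ND.H65

open Pool.Agent.Lib.MP_4fbe7c_an.UL

/-! ### Continuity of the forms -/

section cont

variable {X : Type*} [TopologicalSpace X] {I : Set X} {n c : ℕ} {r : ℕ → ℝ}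
  {η S Z ZZ : X → ℕ → ℝ} {ζ lam A : X → ℝ}

lemma cont_bs {k : ℕ} (hS : ContinuousOn (fun x => S x k) I) (hS0 : ∀ x ∈ I, S x k ≠ 0)
    (hZ : ContinuousOn (fun x => Z x k) I) : ContinuousOn (fun x => bs (S x) (Z x) k) I :=
  hZ.div hS hS0

lemma cont_N (hS : ∀ k, k ≤ n → ContinuousOn (fun x => S x k) I)
    (hS0 : ∀ k, k ≤ n → ∀ x ∈ I, S x k ≠ 0)
    (hZ : ∀ k, k ≤ n → ContinuousOn (fun x => Z x k) I)
    (hZZ : ∀ k, k ≤ n → ContinuousOn (fun x => ZZ x k) I) (hζ : ContinuousOn ζ I) :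
    ContinuousOn (fun x => Nf n r (S x) (Z x) (ZZ x) (ζ x)) I := by
  unfold Nf
  refine (((hZ n le_rfl).sub hζ).pow 2 |>.add
    (((cont_bs (hS 0 n.zero_le) (hS0 0 n.zero_le) (hZ 0 n.zero_le)).sub hζ).pow 2)).add ?_
  refine continuousOn_finsetSum _ fun j hj => ?_
  have hj' : j + 1 ≤ n := Finset.mem_range.mp hj
  exact continuousOn_const.mul
    (((cont_bs (hS _ hj') (hS0 _ hj') (hZZ _ hj')).sub
      (cont_bs (hS _ hj') (hS0 _ hj') (hZ _ hj'))).pow 2)

lemma cont_Lm {k : ℕ} (hη : ContinuousOn (fun x => η x k) I) :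
    ContinuousOn (fun x => Lm r (η x) k) I := by
  unfold Lm
  exact (((continuousOn_const.add hη).mul continuousOn_const).div_const _)

lemma cont_Q (hcn : c ≤ n) (hη : ∀ k, ContinuousOn (fun x => η x k) I)
    (hS : ∀ k, k ≤ n → ContinuousOn (fun x => S x k) I)
    (hS0 : ∀ k, k ≤ n → ∀ x ∈ I, S x k ≠ 0)
    (hZ : ∀ k, k ≤ n → ContinuousOn (fun x => Z x k) I)
    (hZZ : ∀ k, k ≤ n → ContinuousOn (fun x => ZZ x k) I) (hζ : ContinuousOn ζ I)
    (hlam : ContinuousOn lam I) (hA : ContinuousOn A I) :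
    ContinuousOn (fun x => Qf n c (lam x) (A x) r (η x) (S x) (Z x) (ZZ x) (ζ x)) I := by
  have hb : ∀ k, k ≤ n → ContinuousOn (fun x => bs (S x) (Z x) k) I := fun k hk =>
    cont_bs (hS k hk) (hS0 k hk) (hZ k hk)
  have he : ∀ k, k ≤ n → ContinuousOn (fun x => bs (S x) (ZZ x) k) I := fun k hk =>
    cont_bs (hS k hk) (hS0 k hk) (hZZ k hk)
  have hq : ∀ k, k ≤ n → ContinuousOn (fun x => S x c / S x k) I := fun k hk =>
    (hS c hcn).div (hS k hk) (hS0 k hk)
  unfold Qf
  refine ContinuousOn.add (ContinuousOn.add ?_ ?_) ?_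
  · unfold Qlog
    refine ContinuousOn.add (ContinuousOn.sub (hζ.pow 2) (hζ.mul ((hZ n le_rfl).add ?_))) ?_
    · refine continuousOn_finsetSum _ fun k hk => ?_
      have hk' : k ≤ n := Nat.lt_succ_iff.mp (Finset.mem_range.mp hk)
      exact (((hη k).mul continuousOn_const).sub ((hη (k + 1)).mul continuousOn_const)).mul
        (he k hk')
    · refine continuousOn_finsetSum _ fun k hk => ?_
      have hk' : k ≤ n := Nat.lt_succ_iff.mp (Finset.mem_range.mp hk)
      exact ((cont_Lm (hη k)).sub (cont_Lm (hη (k + 1)))).mul ((hb k hk').mul (he k hk'))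
  · refine (hlam.mul hζ).mul ?_
    unfold Tf
    refine continuousOn_finsetSum _ fun j hj => ?_
    have hj' : j + 1 ≤ n := (Finset.mem_Ico.mp hj).2
    exact continuousOn_const.mul ((continuousOn_const.sub (hq _ hj')).mul
      ((he _ hj').sub (he c hcn)))
  · refine hA.mul ?_
    unfold Hf
    refine continuousOn_finsetSum _ fun j hj => ?_
    have hj' : j + 1 ≤ n := (Finset.mem_Ico.mp hj).2
    exact continuousOn_const.mul (((hq _ hj').mul (((hb c hcn).sub (hb _ hj')).mul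
      ((he c hcn).sub (he _ hj')))).sub ((continuousOn_const.sub (hq _ hj')).mul
        (((hb _ hj').mul (he _ hj')).sub ((hb c hcn).mul (he c hcn)))))

lemma cont_eta (hlam : ContinuousOn lam I) (k : ℕ) :
    ContinuousOn (fun x => etaf c r (lam x) k) I := by
  unfold etaf
  by_cases hk : k = 0
  · simp only [hk, if_true]
    exact continuousOn_const
  · simp only [hk, if_false]
    refine (continuousOn_const.sub ?_).div_const _
    unfold Qk
    exact continuousOn_const.mul ((hlam.mul continuousOn_const).neg.rexp)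

end cont

/-! ### The static inequality -/

lemma hh_mono {a b : ℝ} (ha : 0 ≤ a) (hab : a ≤ b) (hb : b < 1) : hh a ≤ hh b := by
  unfold hh
  have h1 : a ^ 2 ≤ b ^ 2 := by nlinarith
  have h2 : 0 < 1 - b ^ 2 := by nlinarith
  rw [div_le_div_iff₀ (by linarith) h2]
  nlinarith [sq_nonneg a, sq_nonneg b]

lemma Nf_ge {n c : ℕ} {r : ℕ → ℝ} (hr : Rts n c r) (S Z ZZ : ℕ → ℝ) (ζ : ℝ) :
    (Z n - ζ) ^ 2 ≤ Nf n r S Z ZZ ζ := by
  unfold Nf
  have h1 : ∀ k, 1 ≤ k → k ≤ n → r k < 1 := by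
    intro k hk
    induction k, hk using Nat.le_induction with
    | base => intro _; exact hr.r1
    | succ k hk ih => intro hkn; exact (hr.ranti k (by omega)).trans_lt (ih (by omega))
  have h2 : ∀ k, k ≤ n + 1 → 0 ≤ r k := by
    intro k hk
    rcases Nat.lt_or_ge n k with h | h
    · have : k = n + 1 := by omega
      rw [this, hr.rlast]
    · exact (hr.rpos k h).le
  have h3 : 0 ≤ ∑ j ∈ Finset.range n, Gs r (j + 1) * (bs S ZZ (j + 1) - bs S Z (j + 1)) ^ 2 := by
    refine Finset.sum_nonneg fun j hj => mul_nonneg ?_ (sq_nonneg _)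
    have hj' : j + 1 ≤ n := Finset.mem_range.mp hj
    unfold Gs
    have := hh_mono (h2 (j + 1 + 1) (by omega)) (hr.ranti (j + 1) hj') (h1 (j + 1) (by omega) hj')
    linarith
  nlinarith [sq_nonneg (bs S Z 0 - ζ)]

/-- The inequality at a point; `z = |ζ|`, `I = ⟨ζ, W - ζ⟩`, `w = |W - ζ|`. -/
lemma point {g z w I N Q d th : ℝ} (hd : 0 < d) (hth : 0 < th) (hz : d * z ^ 2 ≤ th / 1000)
    (hI : |I| ≤ z * w) (hN : w ^ 2 ≤ N) (hQ : 1 / 2 * N ≤ 4 * Q) :
    -g ^ 2 + d * (g * I) - d * th * Q ≤ -(1 / 2 * g ^ 2 + d / 16 * (th * N)) := by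
  have hN0 : 0 ≤ N := (sq_nonneg _).trans hN
  have hI2 : I ^ 2 ≤ z ^ 2 * w ^ 2 := by
    have := pow_le_pow_left₀ (abs_nonneg I) hI 2
    rw [sq_abs] at this
    linarith
  have h1 : d * (g * I) ≤ 1 / 2 * g ^ 2 + 1 / 2 * (d ^ 2 * I ^ 2) := by
    nlinarith [sq_nonneg (g - d * I)]
  have h2 : (d * z ^ 2) * (d * w ^ 2) ≤ th / 1000 * (d * N) := by
    refine mul_le_mul hz (mul_le_mul_of_nonneg_left hN hd.le) (by positivity) (by positivity)
  have h5 : d ^ 2 * I ^ 2 ≤ d ^ 2 * (z ^ 2 * w ^ 2) := mul_le_mul_of_nonneg_left hI2 (by positivity)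
  have h3 : d * th * (1 / 8 * N) ≤ d * th * Q :=
    mul_le_mul_of_nonneg_left (by linarith) (by positivity)
  have h4 : 0 ≤ d * th * N := by positivity
  nlinarith

theorem dis_st (hD : DvfNStatement) (hA : AlgStatement) (hE : EtaStatement) (hW : WtsStatement)
    (hS : StaStatement) : DisNStatement := by
  intro p Ω q m a₀ b θ θ' θ'' n c ρ u v w hsol hord hrts hst ha hb hθ hz t ht
  have hΩ := hsol.dom
  have hn0 : ∀ i, i ≤ n → 0 < ρ i := by
    intro i
    induction i with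
    | zero => intro _; exact hord.pos
    | succ i ih => intro hi; exact (ih (by omega)).trans_le (hord.mono i (by omega))
  have hb0 : 0 < b := by
    obtain ⟨y, hy⟩ := hΩ.closure_nonempty
    have h0 := hθ y hy
    linarith [h0.1, h0.2]
  have hrg : ∀ {k i : ℕ}, k ≤ n → i ∈ Finset.range (k + 1) → i ≤ n := by
    intro k i hk hi
    have := Finset.mem_range.mp hi
    omega
  -- continuity of the fields
  have cu : ∀ i, i ≤ n → ContinuousOn (u i t) (closure Ω) := fun i hi => (hsol.evo i hi).c0 ht.le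
  have cv : ∀ i, i ≤ n → ContinuousOn (v i t) (closure Ω) := fun i hi =>
    ((hsol.evo i hi).C1 ht).c1
  have cvi : ∀ i, i ≤ n → ∀ l, ContinuousOn (fun x => v i t x l) (closure Ω) := fun i hi l =>
    (EuclideanSpace.proj l : Eu p →L[ℝ] ℝ).continuous.comp_continuousOn (cv i hi)
  have cθ : ContinuousOn θ (closure Ω) := hst.c2.toC1.c0
  have cθ' : ContinuousOn θ' (closure Ω) := hst.c2.toC1.c1
  have cP : ∀ k, k ≤ n → ContinuousOn (fun x => Pk (fun i => u i t x) k) (closure Ω) := by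
    intro k hk
    unfold Pk
    exact continuousOn_finsetSum _ fun i hi => cu i (hrg hk hi)
  have cP' : ∀ k, k ≤ n → ∀ l, ContinuousOn (fun x => Pk (fun i => v i t x l) k)
      (closure Ω) := by
    intro k hk l
    unfold Pk
    exact continuousOn_finsetSum _ fun i hi => cvi i (hrg hk hi) l
  have cR' : ∀ k, k ≤ n → ∀ l, ContinuousOn
      (fun x => ∑ i ∈ Finset.range (k + 1), ρ i * v i t x l) (closure Ω) := by
    intro k hk l
    exact continuousOn_finsetSum _ fun i hi => continuousOn_const.mul (cvi i (hrg hk hi) l)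
  have cPg : ContinuousOn (fun x => Pg (fun i => v i t x) n) (closure Ω) := by
    unfold Pg
    exact continuousOn_finsetSum _ fun i hi => cv i (hrg le_rfl hi)
  have pP : ∀ k, k ≤ n → ∀ x ∈ closure Ω, 0 < Pk (fun i => u i t x) k := by
    intro k hk x hx
    unfold Pk
    exact Finset.sum_pos (fun i hi => hsol.pos i (hrg hk hi) t ht x hx) ⟨0, by simp⟩
  have cζ : ContinuousOn (fun x => (θ x)⁻¹ • θ' x) (closure Ω) :=
    (cθ.inv₀ fun x hx => (hst.pos x hx).ne').smul cθ'
  have cζi : ∀ l, ContinuousOn (fun x => ((θ x)⁻¹ • θ' x) l) (closure Ω) := fun l =>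
    (EuclideanSpace.proj l : Eu p →L[ℝ] ℝ).continuous.comp_continuousOn cζ
  have cS : ∀ k, k ≤ n → ContinuousOn (fun x => Sk n (fun i => u i t x) k) (closure Ω) := by
    intro k hk
    unfold Sk
    exact (cP k hk).div (cP n le_rfl) fun x hx => (pP n le_rfl x hx).ne'
  have pS : ∀ k, k ≤ n → ∀ x ∈ closure Ω, Sk n (fun i => u i t x) k ≠ 0 := by
    intro k hk x hx
    unfold Sk
    exact (div_pos (pP k hk x hx) (pP n le_rfl x hx)).ne'
  have cZ : ∀ l k, k ≤ n → ContinuousOn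
      (fun x => Zk n (fun i => u i t x) (fun i => v i t x l) k) (closure Ω) := by
    intro l k hk
    unfold Zk
    exact (cP' k hk l).div (cP n le_rfl) fun x hx => (pP n le_rfl x hx).ne'
  have cZZ : ∀ l k, k ≤ n → ContinuousOn
      (fun x => ZZk n ρ (fun i => u i t x) (fun i => v i t x l) k) (closure Ω) := by
    intro l k hk
    unfold ZZk
    exact (cR' k hk l).div (continuousOn_const.mul (cP n le_rfl)) fun x hx =>
      (mul_pos hord.pos (pP n le_rfl x hx)).ne'
  have clam : ContinuousOn (fun x => lamf b (θ x)) (closure Ω) := by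
    unfold lamf
    refine continuousOn_const.add (ContinuousOn.log (continuousOn_const.div cθ fun x hx =>
      (hst.pos x hx).ne') fun x hx => (div_pos hb0 (hst.pos x hx)).ne')
  have cA : ContinuousOn (fun x => Af a₀ b (θ x) / θ x) (closure Ω) := by
    refine ContinuousOn.div ?_ cθ fun x hx => (hst.pos x hx).ne'
    unfold Af
    exact ((continuousOn_const.mul (cθ.sub continuousOn_const)).sub
      (cθ.mul (cθ.log fun x hx => (hst.pos x hx).ne'))).add continuousOn_const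
  have cη : ∀ k, ContinuousOn (fun x => etaf c (rr n ρ) (lamf b (θ x)) k) (closure Ω) :=
    fun k => cont_eta clam k
  have cg : ContinuousOn (fun x => Pk (fun i => u i t x) n - θ x) (closure Ω) :=
    (cP n le_rfl).sub cθ
  have cQ : ContinuousOn (fun x => QfN n c (lamf b (θ x)) (Af a₀ b (θ x) / θ x) (rr n ρ)
      (etaf c (rr n ρ) (lamf b (θ x))) ρ (fun i => u i t x) (fun i => v i t x)
      ((θ x)⁻¹ • θ' x)) (closure Ω) := by
    unfold QfN
    exact continuousOn_finsetSum _ fun l _ =>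
      cont_Q hrts.cn cη cS pS (cZ l) (cZZ l) (cζi l) clam cA
  have cN : ContinuousOn (fun x => NfN n (rr n ρ) ρ (fun i => u i t x) (fun i => v i t x)
      ((θ x)⁻¹ • θ' x)) (closure Ω) := by
    unfold NfN
    exact continuousOn_finsetSum _ fun l _ => cont_N cS pS (cZ l) (cZZ l) (cζi l)
  have cW : ContinuousOn (fun x => (Pk (fun i => u i t x) n)⁻¹ • Pg (fun i => v i t x) n)
      (closure Ω) := ((cP n le_rfl).inv₀ fun x hx => (pP n le_rfl x hx).ne').smul cPg
  refine ⟨_, hD p Ω q m a₀ b θ θ' θ'' n c ρ u v w hsol hord hrts hst ha hb hθ t ht, ?_⟩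
  rw [← integral_neg]
  refine setIntegral_mono_on ?_ ?_ hΩ.measurableSet ?_
  · exact hΩ.integrableOn (((cg.pow 2).neg.add (continuousOn_const.mul
      (cg.mul (cζ.inner (cW.sub cζ))))).sub ((continuousOn_const.mul cθ).mul cQ))
  · refine hΩ.integrableOn (ContinuousOn.neg ?_)
    unfold DxN
    exact (continuousOn_const.mul (cg.pow 2)).add (continuousOn_const.mul (cθ.mul cN))
  · intro x hxΩ
    have hx : x ∈ closure Ω := subset_closure hxΩ
    unfold DxN
    obtain ⟨⟨l1, l2⟩, ⟨A1, A2⟩, -⟩ := hW n c (rr n ρ) a₀ b hrts ha hb (θ x) (hθ x hx).1 (hθ x hx).2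
    have hθ0 := hst.pos x hx
    have hpar := hE n c (rr n ρ) (lamf b (θ x)) hrts l1 l2
    have hpt : ∀ l : Fin p, 1 / 2 * Nf n (rr n ρ) (Sk n (fun i => u i t x))
        (Zk n (fun i => u i t x) (fun i => v i t x l))
        (ZZk n ρ (fun i => u i t x) (fun i => v i t x l)) (((θ x)⁻¹ • θ' x) l) ≤
        4 * Qf n c (lamf b (θ x)) (Af a₀ b (θ x) / θ x) (rr n ρ)
          (etaf c (rr n ρ) (lamf b (θ x))) (Sk n (fun i => u i t x))
        (Zk n (fun i => u i t x) (fun i => v i t x l))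
        (ZZk n ρ (fun i => u i t x) (fun i => v i t x l)) (((θ x)⁻¹ • θ' x) l) := by
      intro l
      have hsta : Sta n (rr n ρ) (Sk n (fun i => u i t x))
          (Zk n (fun i => u i t x) (fun i => v i t x l))
          (ZZk n ρ (fun i => u i t x) (fun i => v i t x l)) :=
        hS n ρ (fun i _ => u i t x) (fun i _ => v i t x l) 0
          fun i hi => ⟨hn0 i hi, hsol.pos i hi t ht x hx⟩
      exact hA n c (lamf b (θ x)) (Af a₀ b (θ x) / θ x) (rr n ρ)
        (etaf c (rr n ρ) (lamf b (θ x))) _ _ _ _ hpar hsta (div_nonneg A1 hθ0.le) A2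
    have hQ : 1 / 2 * NfN n (rr n ρ) ρ (fun i => u i t x) (fun i => v i t x)
        ((θ x)⁻¹ • θ' x) ≤ 4 * QfN n c (lamf b (θ x)) (Af a₀ b (θ x) / θ x) (rr n ρ)
        (etaf c (rr n ρ) (lamf b (θ x))) ρ (fun i => u i t x) (fun i => v i t x)
        ((θ x)⁻¹ • θ' x) := by
      unfold NfN QfN
      rw [Finset.mul_sum, Finset.mul_sum]
      exact Finset.sum_le_sum fun l _ => hpt l
    have hN : ‖(Pk (fun i => u i t x) n)⁻¹ • Pg (fun i => v i t x) n - (θ x)⁻¹ • θ' x‖ ^ 2 ≤
        NfN n (rr n ρ) ρ (fun i => u i t x) (fun i => v i t x) ((θ x)⁻¹ • θ' x) := by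
      unfold NfN
      rw [EuclideanSpace.real_norm_sq_eq]
      refine Finset.sum_le_sum fun l _ => ?_
      refine le_trans (le_of_eq ?_) (Nf_ge hrts _ _ _ _)
      congr 1
      simp only [Pg, Pk, Zk, PiLp.sub_apply, PiLp.smul_apply, smul_eq_mul]
      have h3 : (∑ i ∈ Finset.range (n + 1), v i t x).ofLp l =
          ∑ i ∈ Finset.range (n + 1), v i t x l := by
        simp
      rw [h3]
      ring
    have hI := abs_real_inner_le_norm ((θ x)⁻¹ • θ' x)
      ((Pk (fun i => u i t x) n)⁻¹ • Pg (fun i => v i t x) n - (θ x)⁻¹ • θ' x)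
    have hz1 : ρ 0 * ‖(θ x)⁻¹ • θ' x‖ ^ 2 ≤ θ x / 1000 := by
      have h3 : ‖(θ x)⁻¹ • θ' x‖ = ‖θ' x‖ / θ x := by
        rw [norm_smul, norm_inv, Real.norm_eq_abs, abs_of_pos hθ0]
        ring
      rw [h3]
      exact hz x hx
    exact point hord.pos hθ0 hz1 hI hN hQ

end Pool.Agent.Lib.MP_4fbe7c_an.ND.H65
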