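import Pool.Agent.Lib.MP_4fbe7c_an.ND.Iface
import Pool.Agent.Lib.MP_4fbe7c_an.ND.Base

/-!
Module LGP (helper65): the time derivative of `∫ f log P_k`.
-/

set_option autoImplicit false

open Set MeasureTheory

namespace Pool.Agent.Lib.MP_4fbe7c_an.ND.H65

open Pool.Agent.Lib.MP_4fbe7c_an.UL

/-- The derivative of a field divided by a function. -/
theorem hasFDerivAt_div_field {p : ℕ} {P : Eu p → ℝ} {F : Eu p → Eu p} {a x : Eu p}
    {D : Eu p →L[ℝ] Eu p} (hP : HasGradientAt P a x) (hF : HasFDerivAt F D x) (h0 : P x ≠ 0) :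
    HasFDerivAt (fun y => (P y)⁻¹ • F y)
      ((P x)⁻¹ • D + (innerSL ℝ ((-(P x ^ 2)⁻¹) • a)).smulRight (F x)) x := by
  have h1 : HasGradientAt (fun y => (P y)⁻¹) ((-(P x ^ 2)⁻¹) • a) x :=
    HasGradientAt.comp' (hasDerivAt_inv h0) hP
  rw [hasGradientAt_iff_fderiv] at h1
  exact h1.smul hF

theorem continuousOn_smulRight {p : ℕ} {s : Set (Eu p)} {a b : Eu p → Eu p}
    (ha : ContinuousOn a s) (hb : ContinuousOn b s) :
    ContinuousOn (fun x => (innerSL ℝ (a x)).smulRight (b x)) s := by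
  have e1 : ContinuousOn (fun x => innerSL ℝ (a x)) s :=
    (innerSL ℝ).continuous.comp_continuousOn ha
  exact ((ContinuousLinearMap.smulRightL ℝ (Eu p) (Eu p)).continuous.comp_continuousOn
    e1).clm_apply hb

theorem lgp_st (hDif : DifStatement) (hIbp : IbpStatement) : LgpNStatement := by
  intro p Ω q m n ρ u v w f f' k h hk hf t ht
  have hΩ := h.dom
  have hkn : ∀ i ∈ Finset.range (k + 1), i ≤ n := fun i hi => by
    have := Finset.mem_range.1 hi
    omega
  have hnn : ∀ i ∈ Finset.range (n + 1), i ≤ n := fun i hi => by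
    have := Finset.mem_range.1 hi
    omega
  have snd : ∀ g : Eu p → ℝ, ContinuousOn g (closure Ω) →
      ContinuousOn (fun a : ℝ × Eu p => g a.2) (Ioi 0 ×ˢ closure Ω) := fun g hg =>
    hg.comp continuous_snd.continuousOn fun a ha => ha.2
  have cu : ∀ i, i ≤ n → ContinuousOn (fun a : ℝ × Eu p => u i a.1 a.2) (Ioi 0 ×ˢ closure Ω) :=
    fun i hi => (h.evo i hi).cz.mono (prod_mono Ioi_subset_Ici_self Subset.rfl)
  have cw : ∀ i, i ≤ n → ContinuousOn (fun a : ℝ × Eu p => tr (w i a.1 a.2))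
      (Ioi 0 ×ˢ closure Ω) := fun i hi => continuous_tr.comp_continuousOn (h.evo i hi).cH
  let P : ℝ → Eu p → ℝ := fun s x => ∑ i ∈ Finset.range (k + 1), u i s x
  let U : ℝ → Eu p → ℝ := fun s x => ∑ i ∈ Finset.range (n + 1), u i s x
  let ut : ℕ → ℝ → Eu p → ℝ := fun i s x => ρ i * tr (w i s x) + u i s x * (m x - U s x)
  let Pt : ℝ → Eu p → ℝ := fun s x => ∑ i ∈ Finset.range (k + 1), ut i s x
  have hPpos : ∀ s, 0 < s → ∀ x ∈ closure Ω, 0 < P s x := fun s hs x hx =>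
    Finset.sum_pos (fun i hi => h.pos i (hkn i hi) s hs x hx) ⟨0, by simp⟩
  have hne : ∀ a ∈ (Ioi (0 : ℝ)) ×ˢ (closure Ω), P a.1 a.2 ≠ 0 := fun a ha =>
    (hPpos a.1 ha.1 a.2 ha.2).ne'
  have cP : ContinuousOn (fun a : ℝ × Eu p => P a.1 a.2) (Ioi 0 ×ˢ closure Ω) :=
    continuousOn_finsetSum _ fun i hi => cu i (hkn i hi)
  have cU : ContinuousOn (fun a : ℝ × Eu p => U a.1 a.2) (Ioi 0 ×ˢ closure Ω) :=
    continuousOn_finsetSum _ fun i hi => cu i (hnn i hi)
  have cut : ∀ i, i ≤ n → ContinuousOn (fun a : ℝ × Eu p => ut i a.1 a.2)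
      (Ioi 0 ×ˢ closure Ω) :=
    fun i hi => (continuousOn_const.mul (cw i hi)).add ((cu i hi).mul ((snd m h.cm).sub cU))
  have cPt : ContinuousOn (fun a : ℝ × Eu p => Pt a.1 a.2) (Ioi 0 ×ˢ closure Ω) :=
    continuousOn_finsetSum _ fun i hi => cut i (hkn i hi)
  have hPd : ∀ s, 0 < s → ∀ x ∈ closure Ω, HasDerivAt (fun r => P r x) (Pt s x) s := by
    intro s hs x hx
    exact HasDerivAt.fun_sum fun i hi => (h.evo i (hkn i hi)).dt s hs x hx
  have hV := hDif p Ω q (fun s x => f x * Real.log (P s x)) (fun s x => f x * (Pt s x / P s x))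
    hΩ ((snd f hf.c0).mul (cP.log hne)) ((snd f hf.c0).mul (cPt.div cP hne))
    (fun s hs x hx => ((hPd s hs x (subset_closure hx)).log
      (hPpos s hs x (subset_closure hx)).ne').const_mul (f x)) t ht
  -- the integration by parts
  let Pv : Eu p → Eu p := fun x => ∑ i ∈ Finset.range (k + 1), v i t x
  let Rv : Eu p → Eu p := fun x => ∑ i ∈ Finset.range (k + 1), ρ i • v i t x
  let Rw : Eu p → Eu p →L[ℝ] Eu p := fun x => ∑ i ∈ Finset.range (k + 1), ρ i • w i t x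
  have hP1 : C1 Ω (P t) Pv := C1.sum _ fun i hi => (h.evo i (hkn i hi)).C1 ht
  have sU : ContinuousOn (U t) (closure Ω) :=
    continuousOn_finsetSum _ fun i hi => (h.evo i (hnn i hi)).c0 ht.le
  have sv : ∀ i, i ≤ n → ContinuousOn (v i t) (closure Ω) := fun i hi =>
    ((h.evo i hi).C1 ht).c1
  have sw : ∀ i, i ≤ n → ContinuousOn (w i t) (closure Ω) := fun i hi =>
    ((h.evo i hi).C2 ht).c2
  have sne : ∀ x ∈ closure Ω, P t x ≠ 0 := fun x hx => (hPpos t ht x hx).ne'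
  have sRv : ContinuousOn Rv (closure Ω) :=
    continuousOn_finsetSum _ fun i hi => (sv i (hkn i hi)).const_smul (ρ i)
  have sRw : ContinuousOn Rw (closure Ω) :=
    continuousOn_finsetSum _ fun i hi => (sw i (hkn i hi)).const_smul (ρ i)
  have dR : ∀ x ∈ Ω, HasFDerivAt Rv (Rw x) x := fun x hx =>
    HasFDerivAt.fun_sum fun i hi => ((h.evo i (hkn i hi)).dxx t ht x hx).const_smul (ρ i)
  have nR : Neu Ω q Rv := Neu.sum _ fun i hi => Neu.smul (fun _ => ρ i) ((h.evo i (hkn i hi)).neu t ht)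
  have sPi : ContinuousOn (fun x => (P t x)⁻¹) (closure Ω) := hP1.c0.inv₀ sne
  have sPn : ContinuousOn (fun x => -(P t x ^ 2)⁻¹) (closure Ω) :=
    ((hP1.c0.pow 2).inv₀ fun x hx => pow_ne_zero 2 (sne x hx)).neg
  have cD : ContinuousOn (fun x => (P t x)⁻¹ • Rw x +
      (innerSL ℝ ((-(P t x ^ 2)⁻¹) • Pv x)).smulRight (Rv x)) (closure Ω) :=
    (sPi.smul sRw).add (continuousOn_smulRight (sPn.smul hP1.c1) sRv)
  have hI := hIbp p Ω q f f' (fun x => (P t x)⁻¹ • Rv x) _ hΩ hf (sPi.smul sRv) cD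
    (fun x hx => hasFDerivAt_div_field (hP1.d1 x hx) (dR x hx) (sne x (subset_closure hx)))
    (Neu.smul _ nR)
  have key : ∀ x ∈ closure Ω, f x * (Pt t x / P t x) =
      f x * tr ((P t x)⁻¹ • Rw x + (innerSL ℝ ((-(P t x ^ 2)⁻¹) • Pv x)).smulRight (Rv x)) +
      (f x * (m x - U t x) + f x * (inner ℝ (Pv x) (Rv x) / P t x ^ 2)) := by
    intro x hx
    have hP := sne x hx
    have e1 : Pt t x = tr (Rw x) + P t x * (m x - U t x) := by
      simp only [Pt, ut, Rw, P]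
      rw [Finset.sum_add_distrib, Finset.sum_mul, tr_sum]
      simp only [tr_smul]
    rw [e1, tr_add, tr_smul, tr_smulRight, real_inner_smul_left]
    field_simp
    ring
  have cG1 : ContinuousOn (fun x => f x *
      tr ((P t x)⁻¹ • Rw x + (innerSL ℝ ((-(P t x ^ 2)⁻¹) • Pv x)).smulRight (Rv x)))
      (closure Ω) := hf.c0.mul (continuous_tr.comp_continuousOn cD)
  have cG2 : ContinuousOn (fun x => f x * (m x - U t x) +
      f x * (inner ℝ (Pv x) (Rv x) / P t x ^ 2)) (closure Ω) :=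
    (hf.c0.mul (h.cm.sub sU)).add (hf.c0.mul ((hP1.c1.inner sRv).div (hP1.c0.pow 2)
      fun x hx => pow_ne_zero 2 (sne x hx)))
  have cG3 : ContinuousOn (fun x => inner ℝ (f' x) ((P t x)⁻¹ • Rv x)) (closure Ω) :=
    hf.c1.inner (sPi.smul sRv)
  have i3 : IntegrableOn (fun x => -inner ℝ (f' x) ((P t x)⁻¹ • Rv x)) Ω :=
    hΩ.integrableOn cG3.neg
  have hint : ∫ x in Ω, f x * (Pt t x / P t x) = ∫ x in Ω, (f x * (m x - U t x)
        - inner ℝ (f' x) (Rv x) / P t x + f x * (inner ℝ (Pv x) (Rv x) / P t x ^ 2)) := by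
    rw [setIntegral_congr_fun hΩ.measurableSet (fun x hx => key x (subset_closure hx)),
      integral_add (hΩ.integrableOn cG1) (hΩ.integrableOn cG2), hI, ← integral_neg,
      ← integral_add i3 (hΩ.integrableOn cG2)]
    refine setIntegral_congr_fun hΩ.measurableSet fun x hx => ?_
    simp only [real_inner_smul_right]
    ring
  rw [hint] at hV
  exact hV

end Pool.Agent.Lib.MP_4fbe7c_an.ND.H65
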