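import Pool.Agent.Lib.MP_4fbe7c_an.ND.Iface
import Pool.Agent.Lib.MP_4fbe7c_an.ND.Base

/-!
Module MOV (helper65): the moving ball.
-/

set_option autoImplicit false

open Set MeasureTheory Filter Topology

namespace Pool.Agent.Lib.MP_4fbe7c_an.ND.H65

/-! ### One-variable calculus -/

/-- The second derivative at a local minimum is nonnegative. -/
theorem second_nonneg {φ φ1 : ℝ → ℝ} {φ2 : ℝ} (hmin : IsLocalMin φ 0)
    (h1 : ∀ᶠ s in 𝓝 (0 : ℝ), HasDerivAt φ (φ1 s) s) (h2 : HasDerivAt φ1 φ2 0) : 0 ≤ φ2 := by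
  by_contra hneg
  push Not at hneg
  have e0 : φ1 0 = 0 := hmin.hasDerivAt_eq_zero h1.self_of_nhds
  have e1 : deriv φ =ᶠ[𝓝 0] φ1 := h1.mono fun s hs => hs.deriv
  have e2 : deriv (deriv φ) 0 = φ2 := by
    rw [e1.deriv_eq]
    exact h2.deriv
  have e3 : deriv φ 0 = 0 := by rw [h1.self_of_nhds.deriv, e0]
  have hmax : IsLocalMax φ 0 := isLocalMax_of_deriv_deriv_neg (by rw [e2]; exact hneg) e3
    h1.self_of_nhds.continuousAt
  have e4 : φ =ᶠ[𝓝 0] fun _ => φ 0 := by
    filter_upwards [hmin, hmax] with s h3 h4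
    exact le_antisymm h4 h3
  have e5 : deriv φ =ᶠ[𝓝 0] fun _ => 0 := by
    have := e4.deriv
    refine this.trans (Eventually.of_forall fun s => ?_)
    simp
  have e6 : deriv (deriv φ) 0 = 0 := by
    rw [e5.deriv_eq]
    simp
  rw [e6] at e2
  exact hneg.ne e2.symm

/-- The derivative at a minimum from the right is nonnegative. -/
theorem right_nonneg {φ : ℝ → ℝ} {a : ℝ} (h : HasDerivWithinAt φ a (Ici 0) 0)
    (hm : ∀ᶠ s in 𝓝[>] (0 : ℝ), φ 0 ≤ φ s) : 0 ≤ a := by
  by_contra hneg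
  push Not at hneg
  have h2 := h.mono (Ioi_subset_Ici_self)
  rw [hasDerivWithinAt_iff_tendsto_slope' (by simp)] at h2
  have h3 := h2.eventually_lt_const hneg
  obtain ⟨s, ⟨hs1, hs2⟩, hs3⟩ := ((hm.and h3).and self_mem_nhdsWithin).exists
  rw [slope_def_field] at hs2
  have hs4 : 0 < s := hs3
  have := div_nonneg (sub_nonneg.mpr hs1) (by linarith : 0 ≤ s - 0)
  linarith

/-- The derivative at a minimum from the left is nonpositive. -/
theorem left_nonpos {φ : ℝ → ℝ} {a t : ℝ} (h : HasDerivAt φ a t)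
    (hm : ∀ᶠ s in 𝓝[<] t, φ t ≤ φ s) : a ≤ 0 := by
  by_contra hneg
  push Not at hneg
  have h2 := h.hasDerivWithinAt (s := Iio t)
  rw [hasDerivWithinAt_iff_tendsto_slope' (by simp)] at h2
  have h3 := h2.eventually_const_lt hneg
  obtain ⟨s, ⟨hs1, hs2⟩, hs3⟩ := ((hm.and h3).and self_mem_nhdsWithin).exists
  rw [slope_def_field] at hs2
  have hs4 : s < t := hs3
  have : (φ s - φ t) / (s - t) ≤ 0 := div_nonpos_of_nonneg_of_nonpos (by linarith) (by linarith)
  linarith

/-! ### The barrier -/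

/-- The barrier along a line. -/
theorem barrier_line (A h0 b n s : ℝ) :
    HasDerivAt (fun s : ℝ => A * (h0 - 2 * s * b - s ^ 2 * n) ^ 2)
      (A * (2 * (h0 - 2 * s * b - s ^ 2 * n) * (-2 * b - 2 * s * n))) s := by
  have h1 : HasDerivAt (fun s : ℝ => h0 - 2 * s * b - s ^ 2 * n) (-2 * b - 2 * s * n) s := by
    have := (((hasDerivAt_id' s).const_mul 2).mul_const b).const_sub h0
    have h2 := ((hasDerivAt_pow 2 s).mul_const n)
    refine (this.fun_sub h2).congr_deriv ?_
    norm_num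
  refine ((h1.fun_pow 2).const_mul A).congr_deriv ?_
  norm_num

theorem barrier_line2 (A h0 b n : ℝ) :
    HasDerivAt (fun s : ℝ => A * (2 * (h0 - 2 * s * b - s ^ 2 * n) * (-2 * b - 2 * s * n)))
      (A * (8 * b ^ 2 - 4 * h0 * n)) 0 := by
  have h1 : ∀ s : ℝ, HasDerivAt (fun s : ℝ => h0 - 2 * s * b - s ^ 2 * n)
      (-2 * b - 2 * s * n) s := by
    intro s
    have := (((hasDerivAt_id' s).const_mul 2).mul_const b).const_sub h0
    have h2 := ((hasDerivAt_pow 2 s).mul_const n)
    refine (this.fun_sub h2).congr_deriv ?_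
    norm_num
  have h5 : HasDerivAt (fun s : ℝ => -2 * b - 2 * s * n) (-(2 * n)) 0 := by
    have := (((hasDerivAt_id' (0 : ℝ)).const_mul 2).mul_const n).const_sub (-2 * b)
    simpa using this
  refine ((((h1 0).const_mul 2).fun_mul h5).const_mul A).congr_deriv ?_
  ring

theorem norm_line {p : ℕ} (y e : Eu p) (s : ℝ) :
    ‖y + s • e‖ ^ 2 = ‖y‖ ^ 2 + 2 * s * inner ℝ y e + s ^ 2 * ‖e‖ ^ 2 := by
  rw [norm_add_sq_real, inner_smul_right, norm_smul, Real.norm_eq_abs, mul_pow, sq_abs]
  ring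

/-- The quadratic inequality. -/
theorem quad_le {d B R k' h : ℝ} (hd : 0 < d) (hR : 0 < R)
    (hk : (8 * d + B) ^ 2 / (32 * d * R ^ 2) ≤ k') :
    0 ≤ 8 * d * R ^ 2 - (8 * d + B) * h + k' * h ^ 2 := by
  have hq : 0 < 32 * d * R ^ 2 := by positivity
  rw [div_le_iff₀ hq] at hk
  have h1 : 0 ≤ k' := by
    by_contra hn
    push Not at hn
    nlinarith [sq_nonneg (8 * d + B)]
  have h2 : 0 ≤ 32 * d * R ^ 2 * (8 * d * R ^ 2 - (8 * d + B) * h + k' * h ^ 2) := by
    nlinarith [sq_nonneg (16 * d * R ^ 2 - (8 * d + B) * h),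
      mul_nonneg (sq_nonneg h) (sub_nonneg.mpr hk)]
  exact nonneg_of_mul_nonneg_right h2 hq

theorem mov_st : MovStatement := by
  intro p Ω q z g H z' d K t₁ t₂ R e₀ c V hΩ hz hd hK ht₁ h12 hR he₀ hpos hsup hbd hini
  intro t₀ htl htr x₀ hx₀ hxR₀
  obtain ⟨k, hk⟩ : ∃ k : ℝ, k = K + 1 + (8 * d + (4 * R * ‖V‖ + 4 * d * p)) ^ 2 /
    (32 * d * R ^ 2) := ⟨_, rfl⟩
  obtain ⟨A, hA⟩ : ∃ A : ℝ → ℝ, A = fun s => e₀ / R ^ 4 * Real.exp (-(k * (s - t₁))) := ⟨_, rfl⟩
  have hApos : ∀ s, 0 < A s := fun s => by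
    rw [hA]
    positivity
  have hAt : ∀ s, HasDerivAt A (-k * A s) s := by
    intro s
    rw [hA]
    have h1 : HasDerivAt (fun s : ℝ => -(k * (s - t₁))) (-k) s := by
      have := (((hasDerivAt_id' s).sub_const t₁).const_mul k).fun_neg
      simpa using this
    refine ((h1.exp).const_mul (e₀ / R ^ 4)).congr_deriv ?_
    ring
  let cc : ℝ → Eu p := fun s => c + (s - t₁) • V
  let hh : ℝ → Eu p → ℝ := fun s x => R ^ 2 - ‖x - cc s‖ ^ 2
  let F : ℝ → Eu p → ℝ := fun s x => z s x - A s * hh s x ^ 2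
  have ccc : Continuous cc := by fun_prop
  have cA : Continuous A := continuous_iff_continuousAt.mpr fun s => (hAt s).continuousAt
  -- the compact set
  let C : Set (ℝ × Eu p) := (Icc t₁ t₂ ×ˢ closure Ω) ∩ {a | ‖a.2 - cc a.1‖ ≤ R}
  have hC : IsCompact C := (isCompact_Icc.prod hΩ.isCompact).inter_right
    (isClosed_le (by fun_prop) continuous_const)
  have hmem : (t₀, x₀) ∈ C := ⟨⟨⟨htl, htr⟩, hx₀⟩, hxR₀.le⟩
  have cz : ContinuousOn (fun a : ℝ × Eu p => z a.1 a.2) C :=
    hz.cz.mono fun a ha => ⟨ht₁.trans ha.1.1.1, ha.1.2⟩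
  have cF : ContinuousOn (fun a : ℝ × Eu p => F a.1 a.2) C := by
    refine cz.sub (Continuous.continuousOn ?_)
    have : Continuous fun a : ℝ × Eu p => A a.1 := cA.comp continuous_fst
    have h2 : Continuous fun a : ℝ × Eu p => cc a.1 := ccc.comp continuous_fst
    exact this.mul ((continuous_const.sub ((continuous_snd.sub h2).norm.pow 2)).pow 2)
  obtain ⟨⟨t, x⟩, hm, hmin⟩ := hC.exists_isMinOn ⟨_, hmem⟩ cF
  have hmin' : ∀ s y, s ∈ Icc t₁ t₂ → y ∈ closure Ω → ‖y - cc s‖ ≤ R → F t x ≤ F s y :=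
    fun s y hs hy hn => hmin (show (s, y) ∈ C from ⟨⟨hs, hy⟩, hn⟩)
  have ht : t ∈ Icc t₁ t₂ := hm.1.1
  have hx : x ∈ closure Ω := hm.1.2
  have hxR : ‖x - cc t‖ ≤ R := hm.2
  -- it suffices that the minimum is nonnegative
  suffices hF : 0 ≤ F t x by
    have h1 : 0 ≤ F t₀ x₀ := hF.trans (hmin' t₀ x₀ ⟨htl, htr⟩ hx₀ hxR₀.le)
    have h2 : 0 < hh t₀ x₀ := by
      have : ‖x₀ - cc t₀‖ < R := hxR₀
      have h3 : 0 ≤ ‖x₀ - cc t₀‖ := norm_nonneg _
      simp only [hh]
      nlinarith
    have h3 : 0 < A t₀ * hh t₀ x₀ ^ 2 := mul_pos (hApos _) (pow_pos h2 2)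
    simp only [F] at h1
    linarith
  by_contra hneg
  push Not at hneg
  have hz0 : 0 ≤ z t x := hpos t ht.1 ht.2 x hx
  -- inside the ball
  have hlt : ‖x - cc t‖ < R := by
    refine lt_of_le_of_ne hxR fun he => ?_
    have : F t x = z t x := by
      simp only [F, hh, he]
      ring
    linarith
  have hhpos : 0 < hh t x := by
    have h3 : 0 ≤ ‖x - cc t‖ := norm_nonneg _
    simp only [hh]
    nlinarith
  -- not the initial time
  have ht1 : t₁ < t := by
    refine lt_of_le_of_ne ht.1 fun he => ?_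
    have h1 : cc t = c := by
      simp only [cc]
      rw [← he]
      simp
    have h2 : ‖x - c‖ ≤ R := by rw [← h1]; exact hxR
    have h3 : e₀ ≤ z t x := by rw [← he]; exact hini x hx h2
    have h4 : A t = e₀ / R ^ 4 := by
      rw [hA]
      simp [← he]
    have h5 : hh t x ≤ R ^ 2 := by
      simp only [hh]
      nlinarith [sq_nonneg ‖x - cc t‖]
    have h6 : hh t x ^ 2 ≤ R ^ 4 := by nlinarith
    have h7 : A t * hh t x ^ 2 ≤ e₀ := by
      rw [h4, div_mul_eq_mul_div, div_le_iff₀ (by positivity)]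
      nlinarith
    simp only [F] at hneg
    linarith
  have ht0 : 0 < t := ht₁.trans_lt ht1
  have hC1 := hz.C1 ht0
  -- the barrier along lines
  have hline : ∀ e : Eu p, ∀ s : ℝ, hh t (x + s • e) =
      hh t x - 2 * s * inner ℝ (x - cc t) e - s ^ 2 * ‖e‖ ^ 2 := by
    intro e s
    simp only [hh]
    have : x + s • e - cc t = (x - cc t) + s • e := by abel
    rw [this, norm_line]
    ring
  have hball : ∀ e : Eu p, ∀ᶠ s in 𝓝 (0 : ℝ), ‖x + s • e - cc t‖ ≤ R := by
    intro e
    have h1 : Continuous (fun s : ℝ => ‖x + s • e - cc t‖) := by fun_prop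
    have h2 := h1.tendsto 0
    simp only [zero_smul, add_zero] at h2
    exact (h2.eventually_lt_const hlt).mono fun s hs => hs.le
  rcases hΩ.mem_or_frontier hx with hxΩ | hxf
  · -- interior point
    have hdir : ∀ e : Eu p, 0 ≤ inner ℝ (H t x e) e - A t *
        (8 * (inner ℝ (x - cc t) e) ^ 2 - 4 * hh t x * ‖e‖ ^ 2) := by
      intro e
      have hin := hΩ.eventually_mem_of_mem hxΩ e
      refine second_nonneg (φ := fun s => z t (x + s • e) - A t *
          (hh t x - 2 * s * inner ℝ (x - cc t) e - s ^ 2 * ‖e‖ ^ 2) ^ 2)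
        (φ1 := fun s => inner ℝ (g t (x + s • e)) e - A t *
          (2 * (hh t x - 2 * s * inner ℝ (x - cc t) e - s ^ 2 * ‖e‖ ^ 2) *
            (-2 * inner ℝ (x - cc t) e - 2 * s * ‖e‖ ^ 2))) ?_ ?_ ?_
      · filter_upwards [hin, hball e] with s h1 h2
        have h3 := hmin' t (x + s • e) ht (subset_closure h1) h2
        simp only [F] at h3
        rw [hline] at h3
        simp only [zero_smul, add_zero]
        ring_nf at h3 ⊢
        exact h3
      · filter_upwards [hin] with s h1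
        exact (hC1.hasDerivAt_line h1).sub (barrier_line _ _ _ _ s)
      · refine HasDerivAt.sub ?_ (barrier_line2 _ _ _ _)
        have h2 : HasDerivAt (fun s : ℝ => x + s • e) e 0 := by
          have := ((hasDerivAt_id (0 : ℝ)).smul_const e).const_add x
          simpa using this
        have h3 : HasFDerivAt (g t) (H t x) (x + (0 : ℝ) • e) := by
          simpa using hz.dxx t ht0 x hxΩ
        have h4 := h3.comp_hasDerivAt (0 : ℝ) h2
        have h5 := h4.inner ℝ (hasDerivAt_const (0 : ℝ) e)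
        simpa using h5
    have htr1 : A t * (8 * ‖x - cc t‖ ^ 2 - 4 * hh t x * p) ≤ tr (H t x) := by
      have h1 : 0 ≤ ∑ i : Fin p, (inner ℝ (H t x (EuclideanSpace.single i 1))
          (EuclideanSpace.single i (1 : ℝ)) - A t *
            (8 * (inner ℝ (x - cc t) (EuclideanSpace.single i (1 : ℝ))) ^ 2 - 4 * hh t x *
              ‖EuclideanSpace.single i (1 : ℝ)‖ ^ 2)) :=
        Finset.sum_nonneg fun i _ => hdir _
      simp only [EuclideanSpace.inner_single_right, PiLp.norm_single,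
        one_mul, norm_one, one_pow, mul_one, conj_trivial] at h1
      rw [Finset.sum_sub_distrib, ← Finset.mul_sum, Finset.sum_sub_distrib, ← Finset.mul_sum,
        ← EuclideanSpace.real_norm_sq_eq] at h1
      simp only [Finset.sum_const, Finset.card_univ, Fintype.card_fin, nsmul_eq_mul] at h1
      have h2 : tr (H t x) = ∑ i : Fin p, H t x (EuclideanSpace.single i 1) i := rfl
      rw [h2]
      linarith
    -- time derivative
    have hht : HasDerivAt (fun s => hh s x) (2 * inner ℝ (x - cc t) V) t := by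
      have h1 : HasDerivAt (fun s : ℝ => x - cc s) (-V) t := by
        have h2 : HasDerivAt cc V t := by
          have := (((hasDerivAt_id t).sub_const t₁).smul_const V).const_add c
          simpa [cc] using this
        simpa using h2.const_sub x
      have h3 := (h1.norm_sq).const_sub (R ^ 2)
      simp only [inner_neg_right, mul_neg, neg_neg] at h3
      exact h3
    have hFt : HasDerivAt (fun s => F s x) (z' t x - (-k * A t * hh t x ^ 2 +
        A t * (2 * hh t x * (2 * inner ℝ (x - cc t) V)))) t := by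
      have h1 := (hAt t).fun_mul (hht.fun_pow 2)
      refine ((hz.dt t ht0 x hx).fun_sub h1).congr_deriv ?_
      norm_num
    have hFle : z' t x - (-k * A t * hh t x ^ 2 +
        A t * (2 * hh t x * (2 * inner ℝ (x - cc t) V))) ≤ 0 := by
      refine left_nonpos hFt ?_
      have h1 : ∀ᶠ s in 𝓝[<] t, t₁ < s :=
        (eventually_gt_nhds ht1).filter_mono nhdsWithin_le_nhds
      have h2 : ∀ᶠ s in 𝓝[<] t, ‖x - cc s‖ < R := by
        have h3 : Continuous (fun s : ℝ => ‖x - cc s‖) := by fun_prop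
        exact ((h3.tendsto t).eventually_lt_const hlt).filter_mono nhdsWithin_le_nhds
      filter_upwards [h1, h2, self_mem_nhdsWithin] with s h3 h4 h5
      have h6 : s < t := h5
      exact hmin' s x ⟨h3.le, h6.le.trans ht.2⟩ hx h4.le
    have hs := hsup t ht1 ht.2 x hx
    -- the contradiction
    have hVb : inner ℝ (x - cc t) V ≤ R * ‖V‖ :=
      (real_inner_le_norm _ _).trans (mul_le_mul_of_nonneg_right hxR (norm_nonneg _))
    have hq := quad_le (h := hh t x) (k' := k - K - 1) hd hR (B := 4 * R * ‖V‖ + 4 * d * p)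
      (by rw [hk]; linarith)
    have hr : ‖x - cc t‖ ^ 2 = R ^ 2 - hh t x := by
      simp only [hh]
      ring
    have hAp := hApos t
    have hzW : z t x < A t * hh t x ^ 2 := by
      simp only [F] at hneg
      linarith
    have e1 : d * (A t * (8 * (R ^ 2 - hh t x) - 4 * hh t x * p)) ≤ d * tr (H t x) := by
      rw [← hr]
      exact mul_le_mul_of_nonneg_left htr1 hd.le
    have e2 : K * z t x ≤ K * (A t * hh t x ^ 2) := mul_le_mul_of_nonneg_left hzW.le hK
    have e3 : 0 ≤ A t * (-k * hh t x ^ 2 + 4 * hh t x * inner ℝ (x - cc t) V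
        - d * (8 * (R ^ 2 - hh t x) - 4 * hh t x * p) + K * hh t x ^ 2) := by
      linear_combination hFle + hs + e1 + e2
    have e4 : 0 ≤ -k * hh t x ^ 2 + 4 * hh t x * inner ℝ (x - cc t) V
        - d * (8 * (R ^ 2 - hh t x) - 4 * hh t x * p) + K * hh t x ^ 2 :=
      nonneg_of_mul_nonneg_right e3 hAp
    have e5 : hh t x * inner ℝ (x - cc t) V ≤ hh t x * (R * ‖V‖) :=
      mul_le_mul_of_nonneg_left hVb hhpos.le
    have e6 : 0 < hh t x ^ 2 := by positivity
    have e7 : -k * hh t x ^ 2 + 4 * hh t x * inner ℝ (x - cc t) V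
        - d * (8 * (R ^ 2 - hh t x) - 4 * hh t x * p) + K * hh t x ^ 2 ≤ -(hh t x ^ 2) := by
      linear_combination 4 * e5 + hq
    linarith
  · -- boundary point
    have hq0 : q x = 0 := hΩ.mem_frontier_iff.mp hxf
    have hin : inner ℝ (gradient q x) (-gradient q x) < 0 := by
      rw [inner_neg_right, real_inner_self_eq_norm_sq]
      have : 0 < ‖gradient q x‖ := norm_pos_iff.mpr (hΩ.grad x hq0)
      nlinarith
    have hev := hΩ.eventually_mem hq0 hin
    have h1 := hC1.hasDerivWithinAt_inward hΩ hx hev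
    have h2 := (barrier_line (A t) (hh t x) (inner ℝ (x - cc t) (-gradient q x))
      (‖-gradient q x‖ ^ 2) 0).hasDerivWithinAt (s := Ici 0)
    have h3 := h1.fun_sub h2
    have h4 := right_nonneg h3 (by
      filter_upwards [hev, (hball (-gradient q x)).filter_mono nhdsWithin_le_nhds] with s h5 h6
      have h7 := hmin' t (x + s • (-gradient q x)) ht (subset_closure h5) h6
      simp only [F] at h7
      rw [hline] at h7
      simp only [zero_smul, add_zero]
      ring_nf at h7 ⊢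
      exact h7)
    have h5 := hz.neu t ht0 x hxf
    have h6 := hbd t ht.1 ht.2 x hxf hxR
    rw [inner_neg_right, inner_neg_right, h5] at h4
    have h7 : 0 < A t * hh t x * inner ℝ (x - cc t) (gradient q x) :=
      mul_pos (mul_pos (hApos t) hhpos) h6
    nlinarith

end Pool.Agent.Lib.MP_4fbe7c_an.ND.H65
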