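import Pool.Agent.Lib.MP_4fbe7c_an.ND.Iface
import Pool.Agent.Lib.MP_4fbe7c_an.ND.Base

/-!
Module OSC (helper65): a Lipschitz function with small Dirichlet integral has small oscillation.
Averages over small balls, then an open-closed argument, then compactness.
-/

set_option autoImplicit false

open Set MeasureTheory Filter Topology Metric

namespace Pool.Agent.Lib.MP_4fbe7c_an.ND.H65

variable {p : ℕ} {Ω : Set (Eu p)} {q : Eu p → ℝ}

/-- Translation of an integral over a ball. -/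
theorem integral_ball_add (φ : Eu p → ℝ) (a : Eu p) (s : ℝ) :
    ∫ h in ball (0 : Eu p) s, φ (a + h) = ∫ x in ball a s, φ x := by
  have h1 := (measurePreserving_add_left (volume : Measure (Eu p)) a).setIntegral_preimage_emb
    (measurableEmbedding_addLeft a) φ (ball a s)
  have h2 : (fun x => a + x) ⁻¹' ball a s = ball (0 : Eu p) s := by
    ext x
    simp [mem_ball, dist_eq_norm]
  rw [h2] at h1
  exact h1

/-- The averages of `f` over two neighbouring balls. -/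
theorem average_le (hΩ : Dom Ω q) {y e : Eu p} {s : ℝ}
    (htube : ∀ τ ∈ Ioo (-1 : ℝ) 2, ∀ h ∈ ball (0 : Eu p) s, y + τ • e + h ∈ Ω)
    {f : Eu p → ℝ} {f' : Eu p → Eu p} (hf : C1 Ω f f') {ε : ℝ} (hε : 0 < ε) :
    |(∫ h in ball (0 : Eu p) s, f (y + e + h)) - ∫ h in ball (0 : Eu p) s, f (y + h)| ≤
      ‖e‖ * (ε / 2 * volume.real (ball (0 : Eu p) s) + (∫ x in Ω, ‖f' x‖ ^ 2) / (2 * ε)) := by
  obtain ⟨C, hC0, hC⟩ := hΩ.exists_bound hf.c1
  have hfin : volume (ball (0 : Eu p) s) < ⊤ := measure_ball_lt_top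
  have hmap : ∀ τ ∈ Ioo (-1 : ℝ) 2, MapsTo (fun h => y + τ • e + h) (ball (0 : Eu p) s)
      (closure Ω) := fun τ hτ h hh => subset_closure (htube τ hτ h hh)
  have hcf : ∀ τ ∈ Ioo (-1 : ℝ) 2, ContinuousOn (fun h => f (y + τ • e + h))
      (ball (0 : Eu p) s) := fun τ hτ =>
    hf.c0.comp (by fun_prop : Continuous fun h : Eu p => y + τ • e + h).continuousOn (hmap τ hτ)
  have hcf' : ∀ τ ∈ Ioo (-1 : ℝ) 2, ContinuousOn (fun h => f' (y + τ • e + h))
      (ball (0 : Eu p) s) := fun τ hτ =>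
    hf.c1.comp (by fun_prop : Continuous fun h : Eu p => y + τ • e + h).continuousOn (hmap τ hτ)
  obtain ⟨C0, hC00, hC0'⟩ := hΩ.exists_bound hf.c0
  have hder : ∀ τ ∈ Ioo (-1 : ℝ) 2, HasDerivAt
      (fun τ : ℝ => ∫ h in ball (0 : Eu p) s, f (y + τ • e + h))
      (∫ h in ball (0 : Eu p) s, inner ℝ (f' (y + τ • e + h)) e) τ := by
    intro τ hτ
    have hev : ∀ᶠ σ in 𝓝 τ, σ ∈ Ioo (-1 : ℝ) 2 := isOpen_Ioo.mem_nhds hτ
    refine (hasDerivAt_integral_of_dominated_loc_of_deriv_le (s := Ioo (-1 : ℝ) 2)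
      (F' := fun σ h => inner ℝ (f' (y + σ • e + h)) e) (bound := fun _ => C * ‖e‖)
      (isOpen_Ioo.mem_nhds hτ) ?_ ?_ ?_ ?_ ?_ ?_).2
    · filter_upwards [hev] with σ hσ
      exact (hcf σ hσ).aestronglyMeasurable measurableSet_ball
    · refine IntegrableOn.of_bound hfin
        ((hcf τ hτ).aestronglyMeasurable measurableSet_ball) C0 ?_
      filter_upwards [ae_restrict_mem measurableSet_ball] with h hh
      exact hC0' _ (hmap τ hτ hh)
    · exact ((hcf' τ hτ).inner continuousOn_const).aestronglyMeasurable measurableSet_ball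
    · filter_upwards [ae_restrict_mem measurableSet_ball] with h hh σ hσ
      refine (norm_inner_le_norm _ _).trans ?_
      exact mul_le_mul_of_nonneg_right (hC _ (hmap σ hσ hh)) (norm_nonneg _)
    · exact integrableOn_const hfin.ne
    · filter_upwards [ae_restrict_mem measurableSet_ball] with h hh σ hσ
      have h1 : (y + h) + σ • e ∈ Ω := by
        have := htube σ hσ h hh
        rwa [add_right_comm] at this
      have h2 := hf.hasDerivAt_line h1
      have h3 : ∀ σ : ℝ, (y + h) + σ • e = y + σ • e + h := fun σ => add_right_comm _ _ _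
      simp only [h3] at h2
      exact h2
  have hbd : ∀ τ ∈ Icc (0 : ℝ) 1, ‖∫ h in ball (0 : Eu p) s, inner ℝ (f' (y + τ • e + h)) e‖ ≤
      ‖e‖ * (ε / 2 * volume.real (ball (0 : Eu p) s) + (∫ x in Ω, ‖f' x‖ ^ 2) / (2 * ε)) := by
    intro τ hτ'
    have hτ : τ ∈ Ioo (-1 : ℝ) 2 := ⟨by linarith [hτ'.1], by linarith [hτ'.2]⟩
    have i1 : IntegrableOn (fun h => ‖f' (y + τ • e + h)‖ ^ 2) (ball (0 : Eu p) s) := by
      refine IntegrableOn.of_bound hfin
        (((hcf' τ hτ).norm.pow 2).aestronglyMeasurable measurableSet_ball) (C ^ 2) ?_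
      filter_upwards [ae_restrict_mem measurableSet_ball] with h hh
      rw [Real.norm_eq_abs, abs_of_nonneg (by positivity)]
      exact pow_le_pow_left₀ (norm_nonneg _) (hC _ (hmap τ hτ hh)) 2
    have i2 : IntegrableOn (fun _ : Eu p => ε / 2) (ball (0 : Eu p) s) :=
      integrableOn_const hfin.ne
    have h1 : ‖∫ h in ball (0 : Eu p) s, inner ℝ (f' (y + τ • e + h)) e‖ ≤
        ∫ h in ball (0 : Eu p) s, ‖e‖ * (ε / 2 + ‖f' (y + τ • e + h)‖ ^ 2 / (2 * ε)) := by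
      refine norm_integral_le_of_norm_le ((i2.add (i1.div_const (2 * ε))).const_mul ‖e‖) ?_
      filter_upwards with h
      have h2 : ‖inner ℝ (f' (y + τ • e + h)) e‖ ≤ ‖f' (y + τ • e + h)‖ * ‖e‖ :=
        norm_inner_le_norm _ _
      have h3 : ‖f' (y + τ • e + h)‖ ≤ ε / 2 + ‖f' (y + τ • e + h)‖ ^ 2 / (2 * ε) := by
        have h4 : ε / 2 + ‖f' (y + τ • e + h)‖ ^ 2 / (2 * ε) - ‖f' (y + τ • e + h)‖ =
            (‖f' (y + τ • e + h)‖ - ε) ^ 2 / (2 * ε) := by
          field_simp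
          ring
        have h5 : 0 ≤ (‖f' (y + τ • e + h)‖ - ε) ^ 2 / (2 * ε) := by positivity
        linarith
      calc _ ≤ ‖f' (y + τ • e + h)‖ * ‖e‖ := h2
        _ ≤ (ε / 2 + ‖f' (y + τ • e + h)‖ ^ 2 / (2 * ε)) * ‖e‖ :=
            mul_le_mul_of_nonneg_right h3 (norm_nonneg _)
        _ = _ := mul_comm _ _
    refine h1.trans ?_
    rw [integral_const_mul, integral_add i2 (i1.div_const (2 * ε)),
      setIntegral_const, integral_div, integral_ball_add (fun x => ‖f' x‖ ^ 2)]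
    refine mul_le_mul_of_nonneg_left ?_ (norm_nonneg _)
    refine add_le_add (le_of_eq (by rw [smul_eq_mul]; ring)) ?_
    refine div_le_div_of_nonneg_right ?_ (by positivity)
    refine setIntegral_mono_set (hΩ.integrableOn (hf.c1.norm.pow 2)) ?_ ?_
    · filter_upwards with x
      positivity
    · refine (LE.le.eventuallyLE ?_)
      intro x hx
      have h2 : x - (y + τ • e) ∈ ball (0 : Eu p) s := by
        have h3 : dist x (y + τ • e) < s := hx
        rw [dist_eq_norm] at h3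
        simpa [mem_ball, dist_eq_norm] using h3
      have h4 := htube τ hτ _ h2
      simpa using h4
  have h1 := (convex_Icc (0 : ℝ) 1).norm_image_sub_le_of_norm_hasDerivWithin_le
    (f := fun τ : ℝ => ∫ h in ball (0 : Eu p) s, f (y + τ • e + h))
    (fun τ hτ => (hder τ ⟨by linarith [hτ.1], by linarith [hτ.2]⟩).hasDerivWithinAt) hbd
    (left_mem_Icc.mpr zero_le_one) (right_mem_Icc.mpr zero_le_one)
  simpa using h1

/-- The values of admissible functions at two points. -/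
def Rel (Ω : Set (Eu p)) (K : ℝ) (x y : Eu p) : Prop :=
  ∀ η : ℝ, 0 < η → ∃ δ : ℝ, 0 < δ ∧ ∀ (f : Eu p → ℝ) (f' : Eu p → Eu p), C1 Ω f f' →
    LipOn Ω K f → ∫ x in Ω, ‖f' x‖ ^ 2 < δ → |f x - f y| < η

theorem Rel.symm {K : ℝ} {x y : Eu p} (h : Rel Ω K x y) : Rel Ω K y x := by
  intro η hη
  obtain ⟨δ, hδ, h1⟩ := h η hη
  exact ⟨δ, hδ, fun f f' hf hl hi => by rw [abs_sub_comm]; exact h1 f f' hf hl hi⟩

theorem Rel.trans {K : ℝ} {x y z : Eu p} (h : Rel Ω K x y) (h' : Rel Ω K y z) :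
    Rel Ω K x z := by
  intro η hη
  obtain ⟨δ, hδ, h1⟩ := h (η / 2) (by positivity)
  obtain ⟨δ', hδ', h2⟩ := h' (η / 2) (by positivity)
  refine ⟨min δ δ', lt_min hδ hδ', fun f f' hf hl hi => ?_⟩
  have h3 := h1 f f' hf hl (hi.trans_le (min_le_left _ _))
  have h4 := h2 f f' hf hl (hi.trans_le (min_le_right _ _))
  have h5 := abs_sub_le (f x) (f y) (f z)
  linarith

theorem Rel.refl (K : ℝ) (x : Eu p) : Rel Ω K x x := fun η hη =>
  ⟨1, one_pos, fun f f' _ _ _ => by simpa using hη⟩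

theorem abs_avg_le {K s : ℝ} (hs : 0 < s) {f : Eu p → ℝ} {f' : Eu p → Eu p} (hf : C1 Ω f f')
    (hl : LipOn Ω K f) {a : Eu p} (ha : ∀ h ∈ ball (0 : Eu p) s, a + h ∈ Ω) :
    |volume.real (ball (0 : Eu p) s) * f a - ∫ h in ball (0 : Eu p) s, f (a + h)| ≤
      |K| * s * volume.real (ball (0 : Eu p) s) := by
  have hfin : volume (ball (0 : Eu p) s) < ⊤ := measure_ball_lt_top
  have haΩ : a ∈ closure Ω := by
    have := ha 0 (mem_ball_self hs)
    rw [add_zero] at this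
    exact subset_closure this
  have hc : ContinuousOn (fun h => f (a + h)) (ball (0 : Eu p) s) :=
    hf.c0.comp (by fun_prop : Continuous fun h : Eu p => a + h).continuousOn
      fun h hh => subset_closure (ha h hh)
  have hb : ∀ h ∈ ball (0 : Eu p) s, ‖f a - f (a + h)‖ ≤ |K| * s := by
    intro h hh
    have h1 := hl a haΩ (a + h) (subset_closure (ha h hh))
    have h2 : ‖a - (a + h)‖ = ‖h‖ := by
      rw [sub_add_cancel_left, norm_neg]
    have h3 : ‖h‖ < s := by simpa using hh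
    rw [h2] at h1
    rw [Real.norm_eq_abs]
    calc |f a - f (a + h)| ≤ K * ‖h‖ := h1
      _ ≤ |K| * ‖h‖ := mul_le_mul_of_nonneg_right (le_abs_self K) (norm_nonneg _)
      _ ≤ |K| * s := mul_le_mul_of_nonneg_left h3.le (abs_nonneg K)
  have i1 : IntegrableOn (fun _ : Eu p => f a) (ball (0 : Eu p) s) := integrableOn_const hfin.ne
  have i2 : IntegrableOn (fun h => f (a + h)) (ball (0 : Eu p) s) := by
    refine IntegrableOn.of_bound hfin
      (hc.aestronglyMeasurable measurableSet_ball) (|f a| + |K| * s) ?_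
    filter_upwards [ae_restrict_mem measurableSet_ball] with h hh
    have h1 := hb h hh
    rw [Real.norm_eq_abs] at h1 ⊢
    have h2 := abs_sub_abs_le_abs_sub (f (a + h)) (f a)
    rw [abs_sub_comm] at h2
    linarith
  have h1 : volume.real (ball (0 : Eu p) s) * f a - ∫ h in ball (0 : Eu p) s, f (a + h) =
      ∫ h in ball (0 : Eu p) s, (f a - f (a + h)) := by
    rw [integral_sub i1 i2, setIntegral_const, smul_eq_mul]
  rw [h1, ← Real.norm_eq_abs]
  exact norm_setIntegral_le_of_norm_le_const hfin hb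

/-- Neighbouring points are related. -/
theorem rel_ball (hΩ : Dom Ω q) (K : ℝ) {y : Eu p} (hy : y ∈ Ω) :
    ∃ r : ℝ, 0 < r ∧ ball y r ⊆ Ω ∧ ∀ y' ∈ ball y r, Rel Ω K y y' := by
  obtain ⟨r0, hr0, hb⟩ := Metric.isOpen_iff.mp hΩ.isOpen y hy
  refine ⟨r0 / 3, by positivity, (ball_subset_ball (by linarith)).trans hb, ?_⟩
  intro y' hy' η hη
  obtain ⟨e, he⟩ : ∃ e : Eu p, e = y' - y := ⟨_, rfl⟩
  have hye : y' = y + e := by rw [he]; abel
  have hen : ‖e‖ < r0 / 3 := by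
    rw [he, ← dist_eq_norm]
    exact hy'
  obtain ⟨s, hs⟩ : ∃ s : ℝ, s = min (r0 / 3) (η / (8 * (|K| + 1))) := ⟨_, rfl⟩
  have hK1 : 0 < |K| + 1 := by positivity
  have hs0 : 0 < s := by
    rw [hs]
    exact lt_min (by positivity) (by positivity)
  have hsr : s ≤ r0 / 3 := by rw [hs]; exact min_le_left _ _
  have hsK : |K| * s ≤ η / 8 := by
    have h1 : s ≤ η / (8 * (|K| + 1)) := by rw [hs]; exact min_le_right _ _
    have h2 : (|K| + 1) * s ≤ η / 8 := by
      calc (|K| + 1) * s ≤ (|K| + 1) * (η / (8 * (|K| + 1))) :=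
            mul_le_mul_of_nonneg_left h1 hK1.le
        _ = η / 8 := by field_simp
    nlinarith
  have htube : ∀ τ ∈ Ioo (-1 : ℝ) 2, ∀ h ∈ ball (0 : Eu p) s, y + τ • e + h ∈ Ω := by
    intro τ hτ h hh
    apply hb
    rw [mem_ball, dist_eq_norm]
    have h1 : y + τ • e + h - y = τ • e + h := by abel
    rw [h1]
    have h2 : ‖h‖ < s := by simpa using hh
    have h3 : |τ| ≤ 2 := abs_le.mpr ⟨by linarith [hτ.1], hτ.2.le⟩
    calc ‖τ • e + h‖ ≤ ‖τ • e‖ + ‖h‖ := norm_add_le _ _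
      _ = |τ| * ‖e‖ + ‖h‖ := by rw [norm_smul, Real.norm_eq_abs]
      _ < r0 := by nlinarith [norm_nonneg e]
  obtain ⟨v, hv⟩ : ∃ v : ℝ, v = volume.real (ball (0 : Eu p) s) := ⟨_, rfl⟩
  have hv0 : 0 < v := by
    rw [hv]
    exact ENNReal.toReal_pos (measure_ball_pos volume _ hs0).ne' measure_ball_lt_top.ne
  have he1 : 0 < ‖e‖ + 1 := by positivity
  obtain ⟨ε, hε⟩ : ∃ ε : ℝ, ε = η / (4 * (‖e‖ + 1)) := ⟨_, rfl⟩
  have hε0 : 0 < ε := by rw [hε]; positivity
  refine ⟨v * ε * η / (2 * (‖e‖ + 1)), by positivity, fun f f' hf hl hi => ?_⟩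
  have h1 := average_le hΩ htube hf hε0
  have h2 := abs_avg_le hs0 hf hl (a := y) (fun h hh => by
    have := htube 0 ⟨by norm_num, by norm_num⟩ h hh
    simpa using this)
  have h3 := abs_avg_le hs0 hf hl (a := y + e) (fun h hh => by
    have := htube 1 ⟨by norm_num, by norm_num⟩ h hh
    simpa using this)
  rw [← hv] at h1 h2 h3
  rw [hye, abs_sub_comm]
  have h4 : ‖e‖ * (ε / 2 * v) ≤ η / 8 * v := by
    have : ‖e‖ * ε ≤ η / 4 := by
      rw [hε, ← mul_div_assoc, div_le_div_iff₀ (by positivity) (by norm_num)]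
      nlinarith [norm_nonneg e]
    nlinarith
  have h5 : ‖e‖ * ((∫ x in Ω, ‖f' x‖ ^ 2) / (2 * ε)) ≤ η / 4 * v := by
    have h6 : (∫ x in Ω, ‖f' x‖ ^ 2) / (2 * ε) ≤ v * η / (4 * (‖e‖ + 1)) := by
      rw [div_le_iff₀ (by positivity)]
      refine hi.le.trans (le_of_eq ?_)
      field_simp
      ring
    calc ‖e‖ * ((∫ x in Ω, ‖f' x‖ ^ 2) / (2 * ε)) ≤ ‖e‖ * (v * η / (4 * (‖e‖ + 1))) :=
          mul_le_mul_of_nonneg_left h6 (norm_nonneg _)
      _ ≤ η / 4 * v := by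
          rw [← mul_div_assoc, div_le_iff₀ (by positivity)]
          nlinarith [norm_nonneg e, mul_pos hη hv0]
  have h6 : v * |f (y + e) - f y| ≤ v * (3 / 4 * η) := by
    have h7 : v * |f (y + e) - f y| = |v * f (y + e) - v * f y| := by
      rw [← mul_sub, abs_mul, abs_of_pos hv0]
    rw [h7]
    obtain ⟨a1, a2⟩ := abs_le.mp h1
    obtain ⟨b1, b2⟩ := abs_le.mp h2
    obtain ⟨c1, c2⟩ := abs_le.mp h3
    have h8 : |K| * s * v ≤ η / 8 * v := mul_le_mul_of_nonneg_right hsK hv0.le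
    rw [abs_le]
    constructor <;> nlinarith
  have h7 := le_of_mul_le_mul_left h6 hv0
  linarith

/-- All points of the domain are related. -/
theorem rel_all (hΩ : Dom Ω q) (K : ℝ) {x y : Eu p} (hx : x ∈ Ω) (hy : y ∈ Ω) :
    Rel Ω K x y := by
  have hU : IsOpen {z | z ∈ Ω ∧ Rel Ω K x z} := by
    rw [Metric.isOpen_iff]
    rintro z ⟨hz, hr⟩
    obtain ⟨r, hr0, hb, h1⟩ := rel_ball hΩ K hz
    exact ⟨r, hr0, fun z' hz' => ⟨hb hz', hr.trans (h1 z' hz')⟩⟩
  have h1 := hΩ.conn.isPreconnected.subset_of_closure_inter_subset hU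
    ⟨x, hx, hx, Rel.refl K x⟩ (by
      rintro z ⟨hz, hzΩ⟩
      obtain ⟨r, hr0, hb, h1⟩ := rel_ball hΩ K hzΩ
      obtain ⟨z', hz', hd⟩ := Metric.mem_closure_iff.mp hz r hr0
      refine ⟨hzΩ, hz'.2.trans (h1 z' ?_).symm⟩
      rw [mem_ball, dist_comm]
      exact hd)
  exact (h1 hy).2

theorem osc_st : OscStatement := by
  intro p Ω q K η hΩ hη
  obtain ⟨x0, hx0⟩ := hΩ.nonempty
  obtain ⟨κ, hκ⟩ : ∃ κ : ℝ, κ = η / (8 * (|K| + 1)) := ⟨_, rfl⟩
  have hK1 : 0 < |K| + 1 := by positivity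
  have hκ0 : 0 < κ := by rw [hκ]; positivity
  have hκK : |K| * κ ≤ η / 8 := by
    have h2 : (|K| + 1) * κ = η / 8 := by
      rw [hκ]
      field_simp
    nlinarith
  have hfin : ∀ t : Finset Ω, ∃ δ : ℝ, 0 < δ ∧ ∀ (f : Eu p → ℝ) (f' : Eu p → Eu p), C1 Ω f f' →
      LipOn Ω K f → ∫ x in Ω, ‖f' x‖ ^ 2 < δ → ∀ y ∈ t, |f x0 - f y| < η / 8 := by
    classical
    intro t
    induction t using Finset.induction_on with
    | empty => exact ⟨1, one_pos, fun f f' _ _ _ y hy => absurd hy (Finset.notMem_empty y)⟩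
    | insert a t _ ih =>
      obtain ⟨δ, hδ, h1⟩ := ih
      obtain ⟨δ', hδ', h2⟩ := rel_all hΩ K hx0 a.2 (η / 8) (by positivity)
      refine ⟨min δ δ', lt_min hδ hδ', fun f f' hf hl hi y hy => ?_⟩
      rcases Finset.mem_insert.mp hy with h3 | h3
      · rw [h3]
        exact h2 f f' hf hl (hi.trans_le (min_le_right _ _))
      · exact h1 f f' hf hl (hi.trans_le (min_le_left _ _)) y h3
  obtain ⟨t, ht⟩ := hΩ.isCompact.elim_finite_subcover (fun y : Ω => ball (y : Eu p) κ)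
    (fun _ => isOpen_ball) (by
      intro x hx
      obtain ⟨y, hy, hd⟩ := Metric.mem_closure_iff.mp hx κ hκ0
      exact mem_iUnion.mpr ⟨⟨y, hy⟩, hd⟩)
  obtain ⟨δ, hδ, h1⟩ := hfin t
  refine ⟨δ, hδ, fun f f' hf hl hi => ?_⟩
  have h2 : ∀ x ∈ closure Ω, |f x - f x0| < η / 4 := by
    intro x hx
    obtain ⟨y, hy⟩ := mem_iUnion.mp (ht hx)
    obtain ⟨hyt, hxy⟩ := mem_iUnion.mp hy
    have h3 := h1 f f' hf hl hi y hyt
    have h4 := hl x hx y (subset_closure y.2)
    have h5 : ‖x - y‖ < κ := by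
      rw [← dist_eq_norm]
      exact hxy
    have h6 : K * ‖x - y‖ ≤ |K| * κ :=
      (mul_le_mul_of_nonneg_right (le_abs_self K) (norm_nonneg _)).trans
        (mul_le_mul_of_nonneg_left h5.le (abs_nonneg K))
    have h7 := abs_sub_le (f x) (f y) (f x0)
    rw [abs_sub_comm (f y) (f x0)] at h7
    linarith
  intro x hx y hy
  have h3 := h2 x hx
  have h4 := h2 y hy
  have h5 := abs_sub_le (f x) (f x0) (f y)
  rw [abs_sub_comm (f x0) (f y)] at h5
  linarith

end Pool.Agent.Lib.MP_4fbe7c_an.ND.H65
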